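import Mathlib
import Pool.Agent.Lib.H51F.G2

set_option autoImplicit false

namespace Pool.Agent.Results.MP_0b7af4_al.ManyDivisors

open Pool.Agent.H78.Farbman

/-- Denominators with many divisors admit large numerators; `d(r)` is the number of divisors.

There is `d₀` such that for every natural number `r ≥ 1` with `d(r) ≥ d₀` and every `m ≥ 1` all
rationals `s / (m r)` with `|s| ≤ d(r) ^ 2 / (3 log d(r))` are points of non-freeness; in
particular, for every real `c < 2 log 2` and all large `n`, with `P` the product of the primes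
`≤ n`, all rationals `s / (m P)` with `|s| ≤ exp (c log P / log log P)` are points of
non-freeness. -/
theorem result :
    (∃ d₀ : ℕ, ∀ r m : ℕ, 1 ≤ r → 1 ≤ m → d₀ ≤ r.divisors.card → ∀ s : ℤ,
      |(s : ℝ)| ≤ (r.divisors.card : ℝ) ^ 2 / (3 * Real.log (r.divisors.card : ℝ)) →
      IsRelationNumber ((s : ℚ) / ((m : ℚ) * (r : ℚ)))) ∧
    (∀ c : ℝ, c < 2 * Real.log 2 → ∃ n₀ : ℕ, ∀ n : ℕ, n₀ ≤ n → ∀ m : ℕ, 1 ≤ m → ∀ s : ℤ,
      |(s : ℝ)| ≤ Real.exp (c * Real.log (primorial n : ℝ) /
        Real.log (Real.log (primorial n : ℝ))) →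
      IsRelationNumber ((s : ℚ) / ((m : ℚ) * (primorial n : ℚ)))) :=
  ⟨Pool.Agent.H51F.g2_log, Pool.Agent.H51F.g2_primorial⟩

end Pool.Agent.Results.MP_0b7af4_al.ManyDivisors
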