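import Mathlib
import Pool.Agent.Lib.H51F.F4

set_option autoImplicit false

namespace Pool.Agent.Results.MP_0b7af4_al.PowerDenominators

open Pool.Agent.H78.Farbman

/-- Denominators divisible by a large power; `d(k)` is the number of divisors of `k`.

For all integers `ρ ≥ 2`, `k ≥ 1`, `e ≥ 2 k`, `m ≥ 1` all rationals `s / (m ρ ^ e)` with
`|s| < (e + 1 - 2 k) 2 ^ (d(k) + 1)` are points of non-freeness; hence for every real `c < log 2`
there is `e₀` such that for all `e ≥ e₀`, `ρ ≥ 2`, `m ≥ 1` all rationals `s / (m ρ ^ e)` with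
`|s| ≤ exp (exp (c log e / log log e))` are points of non-freeness. -/
theorem result :
    (∀ ρ k e m : ℕ, 2 ≤ ρ → 1 ≤ k → 2 * k ≤ e → 1 ≤ m → ∀ s : ℤ,
      |s| < ((e : ℤ) + 1 - 2 * (k : ℤ)) * 2 ^ (k.divisors.card + 1) →
      IsRelationNumber ((s : ℚ) / ((m : ℚ) * (ρ : ℚ) ^ e))) ∧
    (∀ c : ℝ, c < Real.log 2 → ∃ e₀ : ℕ, ∀ e : ℕ, e₀ ≤ e → ∀ ρ m : ℕ, 2 ≤ ρ → 1 ≤ m → ∀ s : ℤ,
      |(s : ℝ)| ≤ Real.exp (Real.exp (c * Real.log (e : ℝ) / Real.log (Real.log (e : ℝ)))) →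
      IsRelationNumber ((s : ℚ) / ((m : ℚ) * (ρ : ℚ) ^ e))) := by
  refine ⟨?_, Pool.Agent.H51F.f4_main⟩
  intro ρ k e m hρ hk he hm s hs
  refine Pool.Agent.H51F.f3_main ρ k e m hρ hk he hm s ?_
  have h1 : ((e + 1 - 2 * k : ℕ) : ℤ) = (e : ℤ) + 1 - 2 * (k : ℤ) := by
    rw [Nat.cast_sub (by omega)]
    push_cast
    ring
  rw [h1]
  exact hs

end Pool.Agent.Results.MP_0b7af4_al.PowerDenominators
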