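import Mathlib
import Pool.Agent.Lib.H73F.J3

set_option autoImplicit false

namespace Pool.Agent.Results.MP_0b7af4_al.SmallNumerators

open Pool.Agent.H78.Farbman

/-- Every rational number `q` with `-4 < q < 4` whose numerator (in lowest terms) has absolute
value at most `34` is a point of non-freeness. -/
theorem result : ∀ q : ℚ, -4 < q → q < 4 → |q.num| ≤ 34 → IsRelationNumber q :=
  Pool.Agent.H73F.small_num

end Pool.Agent.Results.MP_0b7af4_al.SmallNumerators
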