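import Mathlib
import Pool.Agent.Lib.H1102.GCor

set_option autoImplicit false

namespace Pool.Agent.Results.MP_0b7af4_al.SquareLogNumerators

open Pool.Agent.H78.Farbman

/-- (1) For every integer `s` and every natural number `r` with `r ≥ 2 exp (|s| / 8)`, or
`r ≥ exp (11/2 |s| ^ (3/5))`, or `r ≥ exp (5 sqrt |s| log (|s| + 2))`, the rational number `s / r`
is a point of non-freeness.

(2) In particular for every denominator `r ≥ 16` all rational numbers `s / r` with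
`|s| ≤ (log r / (10 log log r)) ^ 2` are points of non-freeness. -/
theorem result :
    (∀ (s : ℤ) (r : ℕ), (2 * Real.exp (|(s : ℝ)| / 8) ≤ (r : ℝ) ∨
      Real.exp (11 / 2 * |(s : ℝ)| ^ (3 / 5 : ℝ)) ≤ (r : ℝ) ∨
      Real.exp (5 * Real.sqrt |(s : ℝ)| * Real.log (|(s : ℝ)| + 2)) ≤ (r : ℝ)) →
      IsRelationNumber ((s : ℚ) / (r : ℚ))) ∧
    (∀ (s : ℤ) (r : ℕ), 16 ≤ r →
      |(s : ℝ)| ≤ (Real.log r / (10 * Real.log (Real.log r))) ^ 2 →
      IsRelationNumber ((s : ℚ) / (r : ℚ))) :=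
  ⟨Pool.Agent.H1102.gen_main, Pool.Agent.H1102.gen_cor⟩

end Pool.Agent.Results.MP_0b7af4_al.SquareLogNumerators
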